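import Pool.Agent.H44.Cyl.HR7
import Pool.Graph.R_seed8.Results.MP_15cfc2_co.TwoSidedBound

set_option autoImplicit false

/-!
# Covering ellipsoids by cylinders: the value of `c(d,k)` for all Hurwitz–Radon pairs, and the
sharp asymptotics of `c(d,k)` for every fixed `k`

`Good (EuclideanSpace ℝ (Fin d)) k` (from the library file `CylDef`) is the set of the real numbers
`c` such that every finite covering of an ellipsoid of `𝔼^d` by `k`-codimensional cylinders has total
cross-sectional volume at least `c`, so that `c(d,k)` is its greatest element.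
-/

namespace Pool.Agent.Results.MP_15cfc2_co.HurwitzRadonValues

open Module Filter Topology Pool.Agent.H52R3.CylDef

/-- the constant `c(d,k)` -/
noncomputable def cylConst (d k : ℕ) : ℝ := sSup (Good (EuclideanSpace ℝ (Fin d)) k)

/-- `Γ(k/2) Γ((d-k)/2+1) / Γ(d/2)` -/
noncomputable def gammaBound (d k : ℕ) : ℝ :=
  Real.Gamma (k / 2) * Real.Gamma ((d - k) / 2 + 1) / Real.Gamma (d / 2)

/-- the Hurwitz–Radon number: `8 a + 2 ^ b` if `m` is `2 ^ (4 a + b)` times an odd number,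
`0 ≤ b ≤ 3` -/
def hurwitzRadon (m : ℕ) : ℕ := 8 * (padicValNat 2 m / 4) + 2 ^ (padicValNat 2 m % 4)

theorem isGreatest_cylConst {d k : ℕ} (hk : 2 ≤ k) (hkd : k < d) :
    IsGreatest (Good (EuclideanSpace ℝ (Fin d)) k) (cylConst d k) :=
  (TwoSidedBound.result d k hk hkd).1

theorem gammaBound_le_cylConst {d k : ℕ} (hk : 2 ≤ k) (hkd : k < d) :
    gammaBound d k ≤ cylConst d k := (TwoSidedBound.result d k hk hkd).2.1

theorem upper {d k m : ℕ} (hk : 2 ≤ k) (hm : 0 < m) (hd : k + m ≤ d) (h : k ≤ hurwitzRadon m)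
    {c : ℝ} (hc : c ∈ Good (EuclideanSpace ℝ (Fin d)) k) : c ≤ gammaBound (k + m) k := by
  have hfr : finrank ℝ (EuclideanSpace ℝ (Fin d)) = d := finrank_euclideanSpace_fin
  obtain ⟨l, rfl⟩ : ∃ l, k = l + 1 := ⟨k - 1, by omega⟩
  have h1 : Pool.Agent.H44.HR.HasSkew l m :=
    (Pool.Agent.H44.HR.hasSkew_hurwitzRadon m).mono (Nat.le_sub_one_of_lt h)
  have h2 := Pool.Agent.H44.HR.good_le_of_hasSkew h1 hm (by rw [hfr]; exact hd) hc
  rw [Pool.Agent.H52R3.Cyl.kap_div_aa (by omega) (by omega)] at h2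
  exact h2

theorem cylConst_le {d k m : ℕ} (hk : 2 ≤ k) (hm : 0 < m) (hd : k + m ≤ d)
    (h : k ≤ hurwitzRadon m) : cylConst d k ≤ gammaBound (k + m) k :=
  upper hk hm hd h (isGreatest_cylConst hk (by omega)).1

theorem lt_of_large {d k : ℕ} (hd : k + 2 ^ ((k + 1) / 2) < d) : k < d :=
  (Nat.le_add_right _ _).trans_lt hd

/-- the multiple of `2 ^ ((k + 1) / 2)` used below -/
theorem exists_mult {d k : ℕ} (hd : k + 2 ^ ((k + 1) / 2) < d) :
    ∃ m : ℕ, 0 < m ∧ k + m ≤ d ∧ k ≤ hurwitzRadon m ∧ d < k + m + 2 ^ ((k + 1) / 2) := by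
  set M := 2 ^ ((k + 1) / 2) with hM
  have hM0 : 0 < M := by positivity
  refine ⟨M * ((d - k) / M), ?_, ?_, ?_, ?_⟩
  · have : 0 < (d - k) / M := Nat.div_pos (by omega) hM0
    positivity
  · have := Nat.mul_div_le (d - k) M
    omega
  · have h0 : M * ((d - k) / M) ≠ 0 := by
      have : 0 < (d - k) / M := Nat.div_pos (by omega) hM0
      positivity
    exact Pool.Agent.H44.HR.le_hurwitzRadon h0 (Dvd.intro _ rfl) (t := (k + 1) / 2) (by omega)
  · have := Nat.lt_mul_div_succ (d - k) hM0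
    rw [mul_add, mul_one] at this
    omega

theorem cylConst_le_explicit {d k : ℕ} (hk : 2 ≤ k) (hd : k + 2 ^ ((k + 1) / 2) < d) :
    cylConst d k ≤ Real.Gamma (k / 2) *
      (2 / ((d : ℝ) - k - 2 ^ ((k + 1) / 2))) ^ ((k : ℝ) / 2 - 1) := by
  obtain ⟨m, hm, hkm, hr, hlt⟩ := exists_mult hd
  have hk' : (2 : ℝ) ≤ k := by exact_mod_cast hk
  have h1 : (k : ℝ) + 2 ^ ((k + 1) / 2) < d := by exact_mod_cast hd
  have h2 : (d : ℝ) < k + m + 2 ^ ((k + 1) / 2) := by exact_mod_cast hlt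
  have hm' : (0 : ℝ) < m := by exact_mod_cast hm
  have hG : 0 < Real.Gamma ((k : ℝ) / 2) := Real.Gamma_pos_of_pos (by linarith)
  refine (cylConst_le hk hm hkm hr).trans ((Pool.Agent.H44.HR.gammaBound_le hk hm).trans ?_)
  refine mul_le_mul_of_nonneg_left ?_ hG.le
  refine Real.rpow_le_rpow (by positivity) ?_ (by linarith)
  refine div_le_div_of_nonneg_left (by norm_num) (by linarith) (by linarith)

theorem tendsto_cylConst {k : ℕ} (hk : 2 ≤ k) :
    Tendsto (fun d : ℕ => cylConst d k * ((d : ℝ) / 2) ^ ((k : ℝ) / 2 - 1)) atTop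
      (𝓝 (Real.Gamma (k / 2))) := by
  have hk' : (2 : ℝ) ≤ k := by exact_mod_cast hk
  have hs : 0 ≤ (k : ℝ) / 2 - 1 := by linarith
  have hG : 0 < Real.Gamma ((k : ℝ) / 2) := Real.Gamma_pos_of_pos (by linarith)
  set c : ℝ := (k : ℝ) + 2 ^ ((k + 1) / 2) with hc
  have hlarge : ∀ᶠ d : ℕ in atTop, k + 2 ^ ((k + 1) / 2) < d := eventually_gt_atTop _
  -- the upper comparison function
  have h1 : Tendsto (fun d : ℕ => (d : ℝ) / ((d : ℝ) - c)) atTop (𝓝 1) := by
    have h2 : Tendsto (fun d : ℕ => 1 + c / ((d : ℝ) - c)) atTop (𝓝 (1 + 0)) := by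
      refine tendsto_const_nhds.add ?_
      refine Tendsto.div_atTop tendsto_const_nhds ?_
      exact tendsto_atTop_add_const_right _ _ tendsto_natCast_atTop_atTop
    rw [add_zero] at h2
    refine h2.congr' ?_
    filter_upwards [hlarge] with d hd
    have h3 : c < d := by
      rw [hc]
      exact_mod_cast hd
    have h4 : (d : ℝ) - c ≠ 0 := by linarith
    field_simp
    ring
  have h5 : Tendsto (fun d : ℕ => Real.Gamma (k / 2) *
      ((d : ℝ) / ((d : ℝ) - c)) ^ ((k : ℝ) / 2 - 1)) atTop (𝓝 (Real.Gamma (k / 2))) := by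
    have h6 := (h1.rpow_const (p := (k : ℝ) / 2 - 1) (Or.inl one_ne_zero)).const_mul
      (Real.Gamma (k / 2))
    rwa [Real.one_rpow, mul_one] at h6
  refine tendsto_of_tendsto_of_tendsto_of_le_of_le' tendsto_const_nhds h5 ?_ ?_
  · filter_upwards [hlarge] with d hd
    have h3 : c < d := by
      rw [hc]
      exact_mod_cast hd
    have hc0 : 0 < c := by rw [hc]; positivity
    have hd0 : (0 : ℝ) < d := by linarith
    have h7 := (Pool.Agent.H44.HR.gammaBound_ge (d := d) hk (lt_of_large hd)).trans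
      (gammaBound_le_cylConst (d := d) hk (lt_of_large hd))
    have h8 : Real.Gamma (k / 2) = Real.Gamma (k / 2) * (2 / (d : ℝ)) ^ ((k : ℝ) / 2 - 1) *
        ((d : ℝ) / 2) ^ ((k : ℝ) / 2 - 1) := by
      rw [mul_assoc, ← Real.mul_rpow (by positivity) (by positivity)]
      have : 2 / (d : ℝ) * ((d : ℝ) / 2) = 1 := by field_simp
      rw [this, Real.one_rpow, mul_one]
    calc Real.Gamma (k / 2) = _ := h8
      _ ≤ _ := mul_le_mul_of_nonneg_right h7 (by positivity)
  · filter_upwards [hlarge] with d hd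
    have h3 : c < d := by
      rw [hc]
      exact_mod_cast hd
    have hc0 : 0 < c := by rw [hc]; positivity
    have hd0 : (0 : ℝ) < d := by linarith
    have h7 := cylConst_le_explicit hk hd
    have h8 : (d : ℝ) - k - 2 ^ ((k + 1) / 2) = d - c := by
      rw [hc]
      ring
    rw [h8] at h7
    have h9 : (0 : ℝ) < d - c := by linarith
    calc cylConst d k * ((d : ℝ) / 2) ^ ((k : ℝ) / 2 - 1)
        ≤ Real.Gamma (k / 2) * (2 / ((d : ℝ) - c)) ^ ((k : ℝ) / 2 - 1) *
          ((d : ℝ) / 2) ^ ((k : ℝ) / 2 - 1) := mul_le_mul_of_nonneg_right h7 (by positivity)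
      _ = _ := by
        rw [mul_assoc, ← Real.mul_rpow (by positivity) (by positivity)]
        congr 2
        field_simp

/-- Let `k ≥ 2`. Then `c(d,k)` exists for all `d > k`; it is `Γ(k/2) Γ(m/2+1) / Γ((k+m)/2)` for
`d = k + m` whenever `k ≤ ρ(m)`, `ρ` the Hurwitz–Radon number; it has explicit bounds on both sides
for all `d > k + 2^⌊(k+1)/2⌋`; and `c(d,k) (d/2)^{k/2-1} → Γ(k/2)` as `d → ∞`. -/
theorem result (k : ℕ) (hk : 2 ≤ k) :
    (∀ d : ℕ, k < d → IsGreatest (Good (EuclideanSpace ℝ (Fin d)) k) (cylConst d k)) ∧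
    (∀ m : ℕ, 0 < m → k ≤ hurwitzRadon m →
      cylConst (k + m) k =
        Real.Gamma (k / 2) * Real.Gamma (m / 2 + 1) / Real.Gamma ((k + m) / 2)) ∧
    (∀ d : ℕ, k + 2 ^ ((k + 1) / 2) < d →
      Real.Gamma (k / 2) * (2 / d) ^ ((k : ℝ) / 2 - 1) ≤ cylConst d k ∧
      cylConst d k ≤ Real.Gamma (k / 2) *
        (2 / ((d : ℝ) - k - 2 ^ ((k + 1) / 2))) ^ ((k : ℝ) / 2 - 1)) ∧
    Tendsto (fun d : ℕ => cylConst d k * ((d : ℝ) / 2) ^ ((k : ℝ) / 2 - 1))
      atTop (𝓝 (Real.Gamma (k / 2))) := by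
  refine ⟨fun d hd => isGreatest_cylConst hk hd, fun m hm h => ?_,
    fun d hd => ⟨?_, cylConst_le_explicit hk hd⟩, tendsto_cylConst hk⟩
  · have h2 : cylConst (k + m) k = gammaBound (k + m) k :=
      le_antisymm (cylConst_le hk hm le_rfl h) (gammaBound_le_cylConst hk (by omega))
    rw [h2, gammaBound]
    push_cast
    have h3 : ((k : ℝ) + m - k) / 2 + 1 = m / 2 + 1 := by ring
    rw [h3]
  · exact (Pool.Agent.H44.HR.gammaBound_ge hk (lt_of_large hd)).trans
      (gammaBound_le_cylConst hk (lt_of_large hd))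

end Pool.Agent.Results.MP_15cfc2_co.HurwitzRadonValues
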